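import Pool.Agent.MUG.Conv

/-!
# Künneth theorem for FGC, part 1: generation and connecting maps (MP_388894, helper65)
-/

open CategoryTheory MonoidalCategory Limits Abelian

universe w w' v u v₁ u₁

set_option linter.unusedSectionVars false

noncomputable section

namespace Pool.Agent.KUN

open Pool.Agent.MUG Pool.Agent.MUG.Tr

section St

variable {k : Type*} [Field k] {Z : Type u} [Category.{v} Z] [Abelian Z] [Linear k Z]
  [MonoidalCategory Z] [MonoidalPreadditive Z] [MonoidalLinear k Z] [RigidCategory Z]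
  [HasExt.{w} Z] {r : ℕ} (c : Fin r → Om.{w} Z)

/-- A graded family of subspaces of `Ext(1,Y)` which is stable under the classes `c`. -/
def St {Y : Z} (A : ∀ n, Submodule k (Ext.{w} (𝟙_ Z) Y n)) : Prop :=
  ∀ (a : Fin r) (m q : ℕ) (h : (c a).1 + m = q) (β : Ext.{w} (𝟙_ Z) Y m), β ∈ A m →
    (c a).2.comp β h ∈ A q

variable (k) in
/-- Every stable graded family of subspaces of `Ext(1,Y)` is finitely generated. -/
def GN (Y : Z) : Prop :=
  ∀ B : ∀ n, Submodule k (Ext.{w} (𝟙_ Z) Y n), St c B →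
    ∃ (s : ℕ) (d : Fin s → ℕ) (g : ∀ a, Ext.{w} (𝟙_ Z) Y (d a)), (∀ a, g a ∈ B (d a)) ∧
      ∀ A : ∀ n, Submodule k (Ext.{w} (𝟙_ Z) Y n), St c A → (∀ a, g a ∈ A (d a)) →
        ∀ n, B n ≤ A n

variable (k) in
/-- `Ext(1,Y)` is finitely generated. -/
def Gn (Y : Z) : Prop :=
  ∃ (s : ℕ) (d : Fin s → ℕ) (g : ∀ a, Ext.{w} (𝟙_ Z) Y (d a)),
    ∀ A : ∀ n, Submodule k (Ext.{w} (𝟙_ Z) Y n), St c A → (∀ a, g a ∈ A (d a)) →
      ∀ n, A n = ⊤

/-- the operators -/
def opc (Y : Z) (a : Fin r) (n : ℕ) :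
    Ext.{w} (𝟙_ Z) Y n →ₗ[k] Ext.{w} (𝟙_ Z) Y ((c a).1 + n) :=
  Ext.precompOfLinear (c a).2 k Y rfl

theorem st_iff {Y : Z} (A : ∀ n, Submodule k (Ext.{w} (𝟙_ Z) Y n)) :
    St c A ↔ GStable (fun a => (c a).1) (M := fun n => Ext.{w} (𝟙_ Z) Y n) (opc c Y) A := by
  constructor
  · intro h a n m hm
    exact h a n _ rfl m hm
  · intro h a m q e β hβ
    obtain rfl : (c a).1 + m = q := e
    exact h a m β hβ

theorem gn_iff (Y : Z) : GN k c Y ↔
    GNoeth (fun a => (c a).1) (M := fun n => Ext.{w} (𝟙_ Z) Y n) (opc c Y (k := k)) := by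
  constructor
  · intro h B hB
    obtain ⟨s, d, g, h1, h2⟩ := h B ((st_iff c B).2 hB)
    exact ⟨s, d, g, h1, fun A hA => h2 A ((st_iff c A).2 hA)⟩
  · intro h B hB
    obtain ⟨s, d, g, h1, h2⟩ := h B ((st_iff c B).1 hB)
    exact ⟨s, d, g, h1, fun A hA => h2 A ((st_iff c A).1 hA)⟩

/-- Finite generation implies the Noetherian property. -/
theorem gn_of_fg [EnoughProjectives Z] (Y : Z) (h : Gn k c Y) : GN k c Y := by
  rw [gn_iff]
  refine gnoeth_of_comm (fun a => (c a).1) (opc c Y (k := k)) ?_ ?_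
  · intro i j
    have hc : ∀ (n : ℕ) (β : Ext.{w} (𝟙_ Z) Y n),
        DirectSum.lof k ℕ (fun n => Ext.{w} (𝟙_ Z) Y n) _
          (opc (k := k) c Y i _ (opc (k := k) c Y j n β)) =
        ((-1 : ℤ) ^ ((c j).1 * (c i).1)) •
          DirectSum.lof k ℕ (fun n => Ext.{w} (𝟙_ Z) Y n) _
            (opc (k := k) c Y j _ (opc (k := k) c Y i n β)) := by
      intro n β
      have e1 : opc (k := k) c Y i _ (opc (k := k) c Y j n β) = ((-1 : ℤ) ^ ((c j).1 * (c i).1)) •
          (c j).2.comp ((c i).2.comp β rfl) (by omega) := by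
        change (c i).2.comp ((c j).2.comp β rfl) rfl = _
        rw [← Ext.comp_assoc (a₁₂ := (c i).1 + (c j).1) (a₂₃ := (c j).1 + n) _ _ _ rfl rfl
          (by omega), unit_comm (c j).2 (c i).2 rfl (by omega), MUE79.zsmul_comp,
          Ext.comp_assoc (a₁₂ := (c i).1 + (c j).1) (a₂₃ := (c i).1 + n) _ _ _ (by omega) rfl
          (by omega)]
      rw [e1, map_zsmul]
      congr 1
      exact lof_comp _ _ Y _ _ _ rfl
    rcases Nat.even_or_odd ((c j).1 * (c i).1) with he | ho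
    · left
      intro n β
      rw [hc, he.neg_one_pow, one_smul]
    · right
      intro n β
      rw [hc, ho.neg_one_pow, neg_smul, one_smul]
  · obtain ⟨s, d, g, hg⟩ := h
    refine ⟨s, d, g, fun _ => trivial, ?_⟩
    intro A hA hyA n
    rw [hg A ((st_iff c A).2 hA) hyA n]

theorem GN.gn {Y : Z} (h : GN k c Y) : Gn k c Y := by
  obtain ⟨s, d, g, -, h2⟩ := h (fun _ => ⊤) (fun _ _ _ _ _ _ => trivial)
  exact ⟨s, d, g, fun A hA hg n => top_le_iff.1 (h2 A hA hg n)⟩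

/-- invariance under isomorphism -/
theorem GN.iso {Y Y' : Z} (e : Y ≅ Y') (h : GN k c Y) : GN k c Y' := by
  rw [gn_iff] at h ⊢
  refine gnoeth_of_surjective (fun a => (c a).1)
    (M' := fun n => Ext.{w} (𝟙_ Z) Y n) (M := fun n => Ext.{w} (𝟙_ Z) Y' n)
    (opc c Y') (opc c Y) (fun n => Ext.postcompOfLinear (Ext.mk₀ e.hom) k (𝟙_ Z) (add_zero n))
    ?_ ?_ h
  · intro a n β
    exact comp_post _ _ _ rfl
  · intro n m
    refine ⟨post m e.inv, ?_⟩
    change post (post m e.inv) e.hom = m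
    rw [post_post, e.inv_hom_id, post_id]

/-- The classes `β.x` generate `Ext(1,Y')` up to finitely many elements. -/
def CofR (k : Type*) [Field k] [Linear k Z] {Y Y' : Z} {e : ℕ} (x : Ext.{w} Y Y' e) : Prop :=
  ∃ (s : ℕ) (d : Fin s → ℕ) (g : ∀ a, Ext.{w} (𝟙_ Z) Y' (d a)),
    ∀ A : ∀ n, Submodule k (Ext.{w} (𝟙_ Z) Y' n), St c A → (∀ a, g a ∈ A (d a)) →
      (∀ (n q : ℕ) (h : n + e = q) (β : Ext.{w} (𝟙_ Z) Y n), β.comp x h ∈ A q) → ∀ n, A n = ⊤

theorem cofR_extClass {S : ShortComplex Z} (hS : S.ShortExact) (h : GN k c S.X₂) :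
    CofR c k hS.extClass := by
  classical
  let φ : ∀ n, Ext.{w} (𝟙_ Z) S.X₁ n →ₗ[k] Ext.{w} (𝟙_ Z) S.X₂ n := fun n =>
    Ext.postcompOfLinear (Ext.mk₀ S.f) k (𝟙_ Z) (add_zero n)
  have hφ : ∀ n β, φ n β = post β S.f := fun n β => rfl
  have hst : ∀ A : ∀ n, Submodule k (Ext.{w} (𝟙_ Z) S.X₁ n), St c A →
      St c (fun n => (A n).map (φ n)) := by
    intro A hA a m q e β hβ
    obtain ⟨γ, hγ, rfl⟩ := Submodule.mem_map.1 hβ
    refine Submodule.mem_map.2 ⟨_, hA a m q e γ hγ, ?_⟩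
    rw [hφ, hφ]
    exact comp_post _ _ _ e
  obtain ⟨s, d, g, h1, h2⟩ := h (fun n => (⊤ : Submodule k _).map (φ n))
    (hst (fun _ => ⊤) (fun _ _ _ _ _ _ => trivial))
  choose g' hg' using fun a => Submodule.mem_map.1 (h1 a)
  refine ⟨s, d, g', fun A hA hgA hr n => ?_⟩
  have h3 := h2 _ (hst A hA) (fun a => Submodule.mem_map.2 ⟨g' a, hgA a, (hg' a).2⟩)
  rw [eq_top_iff]
  intro β _
  obtain ⟨γ, hγ, he⟩ := Submodule.mem_map.1 (h3 n (Submodule.mem_map.2 ⟨β, trivial, rfl⟩))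
  have h4 : φ n (β - γ) = 0 := by rw [map_sub, he, sub_self]
  have h5 : β - γ ∈ A n := by
    cases n with
    | zero =>
      have := hS.mono_f
      have h6 : β - γ = 0 := by
        apply Ext.postcomp_mk₀_injective_of_mono (𝟙_ Z) S.f
        rw [map_zero]
        exact h4
      rw [h6]
      exact (A 0).zero_mem
    | succ n =>
      obtain ⟨δ, hδ⟩ := Ext.covariant_sequence_exact₁ (𝟙_ Z) hS (β - γ) h4 rfl
      rw [← hδ]
      exact hr n _ rfl δ
  have h7 := (A n).add_mem h5 hγ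
  rwa [sub_add_cancel] at h7

/-- the families of classes which are sent into `A` -/
def pull {Y Y' : Z} {e : ℕ} (x : Ext.{w} Y Y' e)
    (A : ∀ n, Submodule k (Ext.{w} (𝟙_ Z) Y' n)) (n : ℕ) : Submodule k (Ext.{w} (𝟙_ Z) Y n) where
  carrier := {β | ∀ (q : ℕ) (h : n + e = q), β.comp x h ∈ A q}
  add_mem' := by
    intro a b ha hb q h
    rw [Ext.add_comp]
    exact (A q).add_mem (ha q h) (hb q h)
  zero_mem' := by
    intro q h
    rw [Ext.zero_comp]
    exact (A q).zero_mem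
  smul_mem' := by
    intro t a ha q h
    rw [Ext.smul_comp]
    exact (A q).smul_mem t (ha q h)

theorem st_pull {Y Y' : Z} {e : ℕ} (x : Ext.{w} Y Y' e)
    (A : ∀ n, Submodule k (Ext.{w} (𝟙_ Z) Y' n)) (hA : St c A) : St c (pull x A) := by
  intro a m q h β hβ q' h'
  rw [Ext.comp_assoc (a₁₂ := q) (a₂₃ := m + e) _ _ _ h rfl (by omega)]
  exact hA a (m + e) q' (by omega) _ (hβ _ rfl)

theorem CofR.comp {Y Y' Y'' : Z} {e e' e'' : ℕ} {x : Ext.{w} Y Y' e} {y : Ext.{w} Y' Y'' e'}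
    (hx : CofR c k x) (hy : CofR c k y) (h : e + e' = e'') : CofR c k (x.comp y h) := by
  obtain ⟨s, d, g, hg⟩ := hx
  obtain ⟨s', d', g', hg'⟩ := hy
  obtain ⟨t, dt, gt, ht⟩ := exists_fin (ι := Fin s ⊕ Fin s')
    (M := fun n => Ext.{w} (𝟙_ Z) Y'' n)
    (Sum.elim (fun a => d a + e') d')
    (fun p => match p with
      | Sum.inl a => (g a).comp y rfl
      | Sum.inr a => g' a)
  refine ⟨t, dt, gt, fun A hA hgA hr => ?_⟩
  have h1 := ht (fun n x => x ∈ A n) hgA
  refine hg' A hA (fun a => h1 (Sum.inr a)) ?_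
  intro n q hq β
  have h2 : pull y A n = ⊤ := by
    refine hg (pull y A) (st_pull c y A hA) ?_ ?_ n
    · intro a q' h'
      exact mem_cast A (g a) y rfl h' (h1 (Sum.inl a))
    · intro n' q' h' β' q'' h''
      rw [Ext.comp_assoc (a₁₂ := q') (a₂₃ := e'') _ _ _ h' h (by omega)]
      exact hr n' q'' (by omega) β'
  have h3 : β ∈ pull y A n := by
    rw [h2]
    trivial
  exact h3 q hq

/-- Graded Nakayama. -/
theorem gn_of_cofR {Y : Z} {e : ℕ} (he : 0 < e) (x : Ext.{w} Y Y e)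
    (hx : ∀ A : ∀ n, Submodule k (Ext.{w} (𝟙_ Z) Y n), St c A → ∀ n q (h : n + e = q) β,
      β ∈ A n → β.comp x h ∈ A q) (h : CofR c k x) : Gn k c Y := by
  classical
  obtain ⟨s, d, g, hg⟩ := h
  refine ⟨s, d, g, fun A hA hgA => ?_⟩
  intro n
  induction n using Nat.strong_induction_on with
  | _ n ih =>
    let A' : ∀ m, Submodule k (Ext.{w} (𝟙_ Z) Y m) := fun m => if m ≤ n then A m else ⊤
    have h1 : ∀ m, m ≤ n → A' m = A m := fun m hm => if_pos hm
    have h2 : ∀ m, n < m → A' m = ⊤ := fun m hm => if_neg (by omega)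
    have h0 : ∀ m, A m ≤ A' m := by
      intro m
      rcases le_or_gt m n with hm | hm
      · rw [h1 m hm]
      · rw [h2 m hm]
        exact le_top
    have h3 : A' n = ⊤ := by
      refine hg A' ?_ (fun a => h0 _ (hgA a)) ?_ n
      · intro a m q hq β hβ
        rcases le_or_gt q n with hq' | hq'
        · rw [h1 m (by omega)] at hβ
          exact h0 _ (hA a m q hq β hβ)
        · rw [h2 q hq']
          trivial
      · intro m q hq β
        rcases le_or_gt q n with hq' | hq'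
        · have h4 : β ∈ A m := by
            rw [ih m (by omega)]
            trivial
          exact h0 _ (hx A hA m q hq β h4)
        · rw [h2 q hq']
          trivial
    rw [← h1 n le_rfl, h3]

end St

end Pool.Agent.KUN
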