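import Pool.Agent.KUN.K1
import Pool.Agent.MUG.ExtSes
import Pool.Agent.MUG.E
import Pool.Agent.RC40.EOa

/-!
# Künneth theorem for FGC, part 2: Carlson cones (MP_388894, helper65)
-/

open CategoryTheory MonoidalCategory Limits Abelian

universe w w' v u v₁ u₁

set_option linter.unusedSectionVars false

noncomputable section

namespace Pool.Agent.KUN

open Pool.Agent.MUG Pool.Agent.MUG.Tr

section Cone

variable {k : Type*} [Field k] {Z : Type u} [Category.{v} Z] [Abelian Z] [Linear k Z]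
  [MonoidalCategory Z] [MonoidalPreadditive Z] [MonoidalLinear k Z] [RigidCategory Z]
  [HasExt.{w} Z] {r : ℕ} (c : Fin r → Om.{w} Z)
  {T : Type u₁} [Category.{v₁} T] [Abelian T] [Linear k T] [MonoidalCategory T]
  [MonoidalPreadditive T] [MonoidalLinear k T] [RigidCategory T] [HasExt.{w'} T]
  [EnoughProjectives T]
  (i : T ⥤ Z) [i.Additive] [PreservesFiniteLimits i] [PreservesFiniteColimits i]

/-- `Y ↦ iY ⊗ N` -/
abbrev FN (N : Z) : T ⥤ Z := i ⋙ tensorRight N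

theorem ext_injective_zero {X Y : T} (hY : Injective Y) {n : ℕ} (x : Ext.{w'} X Y (n + 1)) :
    x = 0 := Ext.eq_zero_of_injective x

theorem comp_zero' {X Y V : T} {a b n : ℕ} (x : Ext.{w'} X Y a) (h : a + b = n) :
    x.comp (0 : Ext.{w'} Y V b) h = 0 := by
  simp

theorem zero_comp' {X Y V : T} {a b n : ℕ} (x : Ext.{w'} Y V b) (h : a + b = n) :
    (0 : Ext.{w'} X Y a).comp x h = 0 := by
  simp

theorem zero_cast {X Y V : T} {a b n n' : ℕ} {x : Ext.{w'} X Y a} {y : Ext.{w'} Y V b}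
    (h : a + b = n) (h' : a + b = n') (e : x.comp y h = 0) : x.comp y h' = 0 := by
  obtain rfl : n = n' := h.symm.trans h'
  exact e

/-- A short exact sequence tensored with `M`. -/
theorem ses_tr {K P X : T} {j : K ⟶ P} {p : P ⟶ X} {w : j ≫ p = 0}
    (hS : (ShortComplex.mk j p w).ShortExact) (M : T) :
    ∃ ξ : Ext.{w'} (X ⊗ M) (K ⊗ M) 1, hS.extClass.mapExactFunctor (tensorRight M) = ξ ∧
      pre (p ▷ M) ξ = 0 ∧
      (∀ (V : T) (n : ℕ) (x : Ext.{w'} V (P ⊗ M) n), post x (p ▷ M) = 0 →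
        ∃ y : Ext.{w'} V (K ⊗ M) n, post y (j ▷ M) = x) ∧
      ∀ (V : T) (n : ℕ) (x : Ext.{w'} V (K ⊗ M) (n + 1)), post x (j ▷ M) = 0 →
        ∃ y : Ext.{w'} V (X ⊗ M) n, y.comp ξ rfl = x := by
  have hSM := hS.map_of_exact (tensorRight M)
  refine ⟨hSM.extClass, Ext.mapExactFunctor_extClass _ _, hSM.comp_extClass, ?_, ?_⟩
  · intro V n x hx
    exact Ext.covariant_sequence_exact₂ V hSM x hx
  · intro V n x hx
    exact Ext.covariant_sequence_exact₁ V hSM x hx rfl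

/-- Carlson cones. -/
theorem exists_cone (hP : ∀ Q : T, Projective Q → ∀ N : Z, GN k c (i.obj Q ⊗ N)) (e : ℕ) :
    ∀ (X X' : T) (z : Ext.{w'} X X' (e + 1)), ∃ (C : T) (a : X' ⟶ C),
      (∀ N : Z, GN k c (i.obj C ⊗ N) → CofR c k
        (z.mapExactFunctor (FN i N) : Ext.{w} ((FN i N).obj X) ((FN i N).obj X') (e + 1))) ∧
      post z a = 0 ∧
      ∀ (M : T) (n q : ℕ) (_ : n + e = q) (x : Ext.{w'} (𝟙_ T) (C ⊗ M) q),
        ∃ y : Ext.{w'} (𝟙_ T) (X ⊗ M) n,
          y.comp (z.mapExactFunctor (tensorRight M) : Ext.{w'} (X ⊗ M) (X' ⊗ M) (e + 1)) rfl = 0 ∧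
          ∀ (m : ℕ) (ρ : Ext.{w'} (𝟙_ T) (𝟙_ T) m), ρ.comp y rfl = 0 →
            ∃ t : Ext.{w'} (𝟙_ T) (X' ⊗ M) (m + q), ρ.comp x rfl = post t (a ▷ M) := by
  induction e with
  | zero =>
    intro X X' z
    obtain ⟨C, a, p, w, hS, rfl⟩ := exists_ses (fun X Y x => ext_factor 0 x) z
    refine ⟨C, a, fun N hN => ?_, hS.extClass_comp, fun M n q hq x => ?_⟩
    · rw [Ext.mapExactFunctor_extClass (F := FN i N)]
      exact cofR_extClass c (hS.map_of_exact (FN i N)) hN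
    · obtain rfl : n = q := hq
      obtain ⟨ξ, h1, h2, h3, h4⟩ := ses_tr hS M
      refine ⟨post x (p ▷ M), ?_, fun m ρ hρ => ?_⟩
      · rw [h1, post_comp, h2, comp_zero']
      · obtain ⟨t, ht⟩ := h3 (𝟙_ T) _ (ρ.comp x rfl) (by rw [comp_post, hρ])
        exact ⟨t, ht.symm⟩
  | succ e ih =>
    intro X X' z
    obtain ⟨K, P, j, p, w, hS, hPr, z', rfl⟩ := ext_factor (e + 1) z
    obtain ⟨C, a, h1, h2, h3⟩ := ih K X' z'
    refine ⟨C, a, fun N hN => ?_, ?_, fun M n q hq x => ?_⟩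
    · rw [Ext.mapExactFunctor_comp]
      refine CofR.comp c ?_ (h1 N hN) _
      rw [Ext.mapExactFunctor_extClass]
      exact cofR_extClass c (hS.map_of_exact (FN i N)) (hP P hPr N)
    · rw [comp_post, h2, comp_zero']
    · obtain ⟨y', hy', h4⟩ := h3 M (n + 1) q (by omega) x
      obtain ⟨ξ, e1, e2, e3, e4⟩ := ses_tr hS M
      have hinj : Injective (P ⊗ M) := by
        have : Projective (P ⊗ M) := projective_tensorRight P M
        exact RC40.injective_of_projective _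
      obtain ⟨y, hy⟩ := e4 (𝟙_ T) _ y' (ext_injective_zero hinj _)
      refine ⟨y, ?_, fun m ρ hρ => h4 m ρ ?_⟩
      · rw [Ext.mapExactFunctor_comp, e1,
          ← Ext.comp_assoc (a₁₂ := n + 1) (a₂₃ := e + 1 + 1) _ _ _ rfl _ (by omega), hy]
        exact zero_cast _ _ hy'
      · rw [← hy, ← Ext.comp_assoc (a₁₂ := m + n) (a₂₃ := n + 1) _ _ _ rfl rfl (by omega), hρ,
          zero_comp']

end Cone

end Pool.Agent.KUN
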