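import Pool.Agent.KUN.K2

/-!
# Künneth theorem for FGC, part 3: the step for one class (MP_388894, helper65)
-/

open CategoryTheory MonoidalCategory Limits Abelian

universe w w' v u v₁ u₁

set_option linter.unusedSectionVars false

noncomputable section

namespace Pool.Agent.KUN

open Pool.Agent.MUG Pool.Agent.MUG.Tr

section Comm

variable {k : Type*} [Field k] {A : Type u} [Category.{v} A] [Abelian A] [Linear k A]
  [MonoidalCategory A] [MonoidalPreadditive A] [MonoidalLinear k A] [RigidCategory A]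
  [HasExt.{w} A] [EnoughProjectives A]

theorem post_zsmul {X Y V : A} {n : ℕ} (t : ℤ) (x : Ext.{w} X Y n) (g : Y ⟶ V) :
    post (t • x) g = t • post x g := MUE79.zsmul_comp _ _ _ _

/-- Moving a class of the unit object past a class. -/
theorem comp_tr (N : A) {e n q : ℕ}
    (ζ : Ext.{w} (𝟙_ A) (𝟙_ A) e) (β : Ext.{w} (𝟙_ A) (𝟙_ A ⊗ N) n)
    (h : n + e = q) (h' : e + n = q) :
    β.comp (ζ.mapExactFunctor (tensorRight N) : Ext.{w} (𝟙_ A ⊗ N) (𝟙_ A ⊗ N) e) h =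
      ((-1 : ℤ) ^ (n * e)) • ζ.comp β h' := by
  have h1 : (ζ.mapExactFunctor (tensorRight N) : Ext.{w} (𝟙_ A ⊗ N) (𝟙_ A ⊗ N) e) =
      pre (λ_ N).hom (post (act N ζ) (λ_ N).inv) := by
    have h2 : act N ζ = pre (λ_ N).inv (post (ζ.mapExactFunctor (tensorRight N)) (λ_ N).hom) :=
      rfl
    rw [h2, ← pre_post, pre_pre, Iso.hom_inv_id, pre_id, post_post, Iso.hom_inv_id, post_id]
  have h3 := act_central (post β (λ_ N).hom) ζ h' h
  rw [act_unit] at h3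
  have h4 : (post β (λ_ N).hom).comp (act N ζ) h =
      ((-1 : ℤ) ^ (n * e)) • ζ.comp (post β (λ_ N).hom) h' := by
    rw [h3, smul_smul, ← pow_add, ← two_mul, pow_mul, neg_one_sq, one_pow, one_smul]
  rw [h1, ← post_comp, ← comp_post, h4, post_zsmul, comp_post, post_post, Iso.hom_inv_id,
    post_id]

end Comm

section Step

variable {k : Type*} [Field k] {Z : Type u} [Category.{v} Z] [Abelian Z] [Linear k Z]
  [MonoidalCategory Z] [MonoidalPreadditive Z] [MonoidalLinear k Z] [RigidCategory Z]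
  [HasExt.{w} Z] [EnoughProjectives Z] {r : ℕ} (c : Fin r → Om.{w} Z)
  {T : Type u₁} [Category.{v₁} T] [Abelian T] [Linear k T] [MonoidalCategory T]
  [MonoidalPreadditive T] [MonoidalLinear k T] [RigidCategory T] [HasExt.{w'} T]
  [EnoughProjectives T]
  (i : T ⥤ Z) [i.Additive] [PreservesFiniteLimits i] [PreservesFiniteColimits i] [i.Monoidal]

theorem comp_FN (N : Z) {e n q : ℕ} (z : Ext.{w'} (𝟙_ T) (𝟙_ T) e)
    (β : Ext.{w} (𝟙_ Z) (i.obj (𝟙_ T) ⊗ N) n) (h : n + e = q) (h' : e + n = q) :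
    β.comp (z.mapExactFunctor (FN i N) : Ext.{w} (i.obj (𝟙_ T) ⊗ N) (i.obj (𝟙_ T) ⊗ N) e) h =
      ((-1 : ℤ) ^ (n * e)) • (hat i z : Ext.{w} (𝟙_ Z) (𝟙_ Z) e).comp β h' := by
  let η : i.obj (𝟙_ T) ⟶ 𝟙_ Z := Functor.OplaxMonoidal.η i
  let ε : 𝟙_ Z ⟶ i.obj (𝟙_ T) := Functor.LaxMonoidal.ε i
  have hηε : η ≫ ε = 𝟙 _ := Functor.Monoidal.η_ε i
  have h1 : (z.mapExactFunctor i : Ext.{w} _ _ e) = pre η (post (hat i z) ε) := by
    have h2 : (hat i z : Ext.{w} (𝟙_ Z) (𝟙_ Z) e) = pre ε (post (z.mapExactFunctor i) η) := rfl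
    rw [h2, ← pre_post, pre_pre, hηε, pre_id, post_post, hηε, post_id]
  have h3 : (z.mapExactFunctor (FN i N) :
      Ext.{w} (i.obj (𝟙_ T) ⊗ N) (i.obj (𝟙_ T) ⊗ N) e) =
      pre (η ▷ N) (post ((hat i z : Ext.{w} (𝟙_ Z) (𝟙_ Z) e).mapExactFunctor (tensorRight N))
        (ε ▷ N)) := by
    have h5 : (z.mapExactFunctor (FN i N) :
      Ext.{w} (i.obj (𝟙_ T) ⊗ N) (i.obj (𝟙_ T) ⊗ N) e) =
      ((z.mapExactFunctor i : Ext.{w} _ _ e).mapExactFunctor (tensorRight N) : Ext.{w} _ _ e) :=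
      MUE79.map_comp i (tensorRight N) z
    rw [h5, h1, map_pre, map_post]
    rfl
  rw [h3, ← post_comp, ← comp_post, comp_tr N _ _ h h', post_zsmul, comp_post, post_post,
    ← comp_whiskerRight, hηε, id_whiskerRight, post_id]

/-- `i1 ⊗ N ≅ N` -/
def unitIso (N : Z) : i.obj (𝟙_ T) ⊗ N ≅ N :=
  whiskerRightIso (Functor.Monoidal.εIso i).symm N ≪≫ λ_ N

/-- The step for one class of positive degree. -/
theorem gn_step (hP : ∀ Q : T, Projective Q → ∀ N : Z, GN k c (i.obj Q ⊗ N))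
    (hc : ∀ (Y : Z) (A : ∀ n, Submodule k (Ext.{w} (𝟙_ Z) Y n)), St c A →
      ∀ (m : ℕ) (z : Ext.{w'} (𝟙_ T) (𝟙_ T) m) (n q : ℕ) (h : m + n = q)
        (β : Ext.{w} (𝟙_ Z) Y n), β ∈ A n → (hat i z : Ext.{w} (𝟙_ Z) (𝟙_ Z) m).comp β h ∈ A q)
    {e : ℕ} (z : Ext.{w'} (𝟙_ T) (𝟙_ T) (e + 1)) :
    ∃ C : T, (∀ N : Z, GN k c (i.obj C ⊗ N) → GN k c N) ∧
      ∀ (M : T) (q : ℕ) (_ : e ≤ q) (x : Ext.{w'} (𝟙_ T) (C ⊗ M) q),
        z.comp (z.comp x rfl) rfl = 0 := by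
  obtain ⟨C, a, h1, h2, h3⟩ := exists_cone c i hP e (𝟙_ T) (𝟙_ T) z
  refine ⟨C, fun N hN => ?_, fun M q hq x => ?_⟩
  · have h4 := gn_of_cofR c (Nat.succ_pos e) _ ?_ (h1 N hN)
    · exact GN.iso c (unitIso i N) (gn_of_fg c _ h4)
    · intro A hA n q h β hβ
      rw [comp_FN i N z β h (by omega)]
      exact zsmul_mem (hc _ A hA _ z n q (by omega) β hβ) _
  · obtain ⟨n, rfl⟩ : ∃ n, q = n + e := ⟨q - e, by omega⟩
    obtain ⟨y, hy, h4⟩ := h3 M n (n + e) rfl x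
    have h5 : z.comp y rfl = 0 := by
      have h6 := comp_tr M z y (show n + (e + 1) = (e + 1) + n by omega) rfl
      rw [zero_cast _ _ hy] at h6
      have h7 : ((-1 : ℤ) ^ (n * (e + 1))) • (((-1 : ℤ) ^ (n * (e + 1))) • z.comp y rfl) = 0 := by
        rw [← h6, smul_zero]
      rwa [smul_smul, ← pow_add, ← two_mul, pow_mul, neg_one_sq, one_pow, one_smul] at h7
    obtain ⟨t, ht⟩ := h4 (e + 1) z h5
    rw [ht, ← comp_post]
    have h8 := comp_tr M z t (show (e + 1 + (n + e)) + (e + 1) = (e + 1) + (e + 1 + (n + e)) by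
      omega) rfl
    have h9 : post (t.comp (z.mapExactFunctor (tensorRight M) :
        Ext.{w'} (𝟙_ T ⊗ M) (𝟙_ T ⊗ M) (e + 1)) (show (e + 1 + (n + e)) + (e + 1) =
          (e + 1) + (e + 1 + (n + e)) by omega)) (a ▷ M) = 0 := by
      rw [comp_post]
      have h10 : post (z.mapExactFunctor (tensorRight M) :
        Ext.{w'} (𝟙_ T ⊗ M) (𝟙_ T ⊗ M) (e + 1)) (a ▷ M) = 0 := by
        have h11 := map_post (tensorRight M) z a
        rw [h2, Ext.mapExactFunctor_zero] at h11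
        exact h11.symm
      rw [h10, comp_zero']
    rw [h8, post_zsmul] at h9
    have h12 : ((-1 : ℤ) ^ ((e + 1 + (n + e)) * (e + 1))) •
        (((-1 : ℤ) ^ ((e + 1 + (n + e)) * (e + 1))) • post (z.comp t rfl) (a ▷ M)) = 0 := by
      rw [h9, smul_zero]
    rwa [smul_smul, ← pow_add, ← two_mul, pow_mul, neg_one_sq, one_pow, one_smul] at h12

end Step

end Pool.Agent.KUN
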