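import Pool.Agent.KUN.K3

/-!
# Künneth theorem for FGC, part 4: the product of the cones is projective (MP_388894, helper65)
-/

open CategoryTheory MonoidalCategory Limits Abelian

universe w w' v u v₁ u₁

set_option linter.unusedSectionVars false

noncomputable section

namespace Pool.Agent.KUN

open Pool.Agent.MUG Pool.Agent.MUG.Tr

section Van

variable {k : Type*} [Field k] {T : Type u₁} [Category.{v₁} T] [Abelian T] [Linear k T]
  [MonoidalCategory T] [MonoidalPreadditive T] [MonoidalLinear k T] [RigidCategory T]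
  [HasExt.{w'} T] [EnoughProjectives T]

/-- multiples of a class -/
def RR (k : Type*) [Field k] [Linear k T] (X : T) (ω : Om.{w'} T) (n : ℕ) :
    Submodule k (Ext.{w'} (𝟙_ T) X n) :=
  Submodule.span k {x | ∃ (m : ℕ) (h : ω.1 + m = n) (y : Ext.{w'} (𝟙_ T) X m), x = ω.2.comp y h}

/-- multiples of the classes of a list -/
def JJ (k : Type*) [Field k] [Linear k T] (X : T) :
    List (Om.{w'} T) → ∀ n, Submodule k (Ext.{w'} (𝟙_ T) X n)
  | [], _ => ⊥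
  | ω :: L, n => JJ k X L n ⊔ RR k X ω n

theorem RR_stable (X : T) (ω : Om.{w'} T) {m n q : ℕ} (h : m + n = q)
    (ζ : Ext.{w'} (𝟙_ T) (𝟙_ T) m) (x : Ext.{w'} (𝟙_ T) X n) (hx : x ∈ RR k X ω n) :
    ζ.comp x h ∈ RR k X ω q := by
  unfold RR at hx
  induction hx using Submodule.span_induction with
  | mem x hx =>
    obtain ⟨l, hl, y, rfl⟩ := hx
    have h1 : ζ.comp (ω.2.comp y hl) h = ((-1 : ℤ) ^ (ω.1 * m)) •
        ω.2.comp (ζ.comp y rfl) (show ω.1 + (m + l) = q by omega) := by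
      rw [← Ext.comp_assoc (a₁₂ := m + ω.1) (a₂₃ := n) _ _ _ rfl hl (by omega),
        unit_comm ω.2 ζ rfl (by omega), MUE79.zsmul_comp,
        Ext.comp_assoc (a₁₂ := m + ω.1) (a₂₃ := m + l) _ _ _ (by omega) rfl (by omega)]
    have h2 : ω.2.comp (ζ.comp y rfl) (show ω.1 + (m + l) = q by omega) ∈ RR k X ω q :=
      Submodule.subset_span ⟨_, _, _, rfl⟩
    rw [h1]
    exact zsmul_mem h2 _
  | zero => rw [Ext.comp_zero]; exact Submodule.zero_mem _
  | add x y _ _ hx hy => rw [Ext.comp_add]; exact Submodule.add_mem _ hx hy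
  | smul t x _ hx => rw [Ext.comp_smul]; exact Submodule.smul_mem _ _ hx

theorem JJ_stable (X : T) (L : List (Om.{w'} T)) {m n q : ℕ} (h : m + n = q)
    (ζ : Ext.{w'} (𝟙_ T) (𝟙_ T) m) (x : Ext.{w'} (𝟙_ T) X n) (hx : x ∈ JJ k X L n) :
    ζ.comp x h ∈ JJ k X L q := by
  induction L generalizing x with
  | nil =>
    have hx' : x = 0 := hx
    rw [hx', Ext.comp_zero]
    exact Submodule.zero_mem _
  | cons ω L ih =>
    obtain ⟨a, ha, b, hb, rfl⟩ := Submodule.mem_sup.1 hx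
    rw [Ext.comp_add]
    exact Submodule.add_mem_sup (ih a ha) (RR_stable X ω h ζ b hb)

theorem mem_JJ (X : T) (L : List (Om.{w'} T)) (ω : Om.{w'} T) (hω : ω ∈ L) {m q : ℕ}
    (h : ω.1 + m = q) (y : Ext.{w'} (𝟙_ T) X m) : ω.2.comp y h ∈ JJ k X L q := by
  induction L with
  | nil => exact absurd hω (by simp)
  | cons ω' L ih =>
    rcases List.mem_cons.1 hω with rfl | h'
    · exact Submodule.mem_sup_right (Submodule.subset_span ⟨_, _, _, rfl⟩)
    · exact Submodule.mem_sup_left (ih h')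

theorem RR_mem (X : T) (ω : Om.{w'} T) {m n : ℕ} (h : ω.1 + m = n) (x : Ext.{w'} (𝟙_ T) X n)
    (hx : x ∈ RR k X ω n) : ∃ y : Ext.{w'} (𝟙_ T) X m, x = ω.2.comp y h := by
  unfold RR at hx
  induction hx using Submodule.span_induction with
  | mem x hx =>
    obtain ⟨l, hl, y, rfl⟩ := hx
    obtain rfl : m = l := by omega
    exact ⟨y, rfl⟩
  | zero => exact ⟨0, by rw [Ext.comp_zero]⟩
  | add x y _ _ hx hy =>
    obtain ⟨a, rfl⟩ := hx
    obtain ⟨b, rfl⟩ := hy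
    exact ⟨a + b, by rw [Ext.comp_add]⟩
  | smul t x _ hx =>
    obtain ⟨a, rfl⟩ := hx
    exact ⟨t • a, by rw [Ext.comp_smul]⟩

/-- Removing nilpotent classes. -/
theorem vanish_aux (X : T) (L : List (Om.{w'} T)) (hpos : ∀ ω ∈ L, 0 < ω.1)
    (hnil : ∀ ω ∈ L, ∀ (q : ℕ) (_ : ω.1 ≤ q + 1) (x : Ext.{w'} (𝟙_ T) X q),
      ω.2.comp (ω.2.comp x rfl) rfl = 0)
    (hB : ∃ B : ℕ, ∀ n, B < n → JJ k X L n = ⊤) :
    ∃ B : ℕ, ∀ n, B < n → ∀ x : Ext.{w'} (𝟙_ T) X n, x = 0 := by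
  induction L with
  | nil =>
    obtain ⟨B, hB⟩ := hB
    refine ⟨B, fun n hn x => ?_⟩
    have h1 : x ∈ JJ k X [] n := by rw [hB n hn]; trivial
    exact h1
  | cons ω L ih =>
    refine ih (fun ω' h => hpos ω' (List.mem_cons_of_mem _ h))
      (fun ω' h => hnil ω' (List.mem_cons_of_mem _ h)) ?_
    obtain ⟨B, hB⟩ := hB
    have hdec : ∀ (m n : ℕ) (h : ω.1 + m = n) (_ : B < n) (x : Ext.{w'} (𝟙_ T) X n),
        ∃ (j : Ext.{w'} (𝟙_ T) X n) (y : Ext.{w'} (𝟙_ T) X m), j ∈ JJ k X L n ∧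
          x = j + ω.2.comp y h := by
      intro m n h hn x
      have h1 : x ∈ JJ k X (ω :: L) n := by rw [hB n hn]; trivial
      obtain ⟨a, ha, b, hb, rfl⟩ := Submodule.mem_sup.1 h1
      obtain ⟨y, rfl⟩ := RR_mem X ω h b hb
      exact ⟨a, y, ha, rfl⟩
    refine ⟨B + 3 * ω.1, fun n hn => ?_⟩
    rw [eq_top_iff]
    intro x _
    obtain ⟨m, hm⟩ : ∃ m, n = ω.1 + (ω.1 + (ω.1 + m)) := ⟨n - 3 * ω.1, by omega⟩
    obtain ⟨j₁, y₁, h1, rfl⟩ := hdec (ω.1 + (ω.1 + m)) n hm.symm (by omega) x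
    obtain ⟨j₂, y₂, h2, rfl⟩ := hdec (ω.1 + m) _ rfl (by omega) y₁
    obtain ⟨j₃, y₃, h3, rfl⟩ := hdec m _ rfl (by omega) y₂
    refine Submodule.add_mem _ h1 ?_
    rw [Ext.comp_add, Ext.comp_add, Ext.comp_add]
    refine Submodule.add_mem _ (JJ_stable X L _ _ _ h2) (Submodule.add_mem _ ?_ ?_)
    · exact JJ_stable X L _ _ _ (JJ_stable X L _ _ _ h3)
    · have h4 := hnil ω (List.mem_cons_self) (ω.1 + m) (by omega) (ω.2.comp y₃ rfl)
      have h5 : ω.2.comp (ω.2.comp (ω.2.comp y₃ rfl) rfl) hm.symm = 0 := by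
        subst hm
        exact h4
      rw [h5]
      exact Submodule.zero_mem _

/-- If algebra generators of positive degree act nilpotently on `Ext(1,X)`, then it is zero in
large degrees. -/
theorem vanish (hF : FGC.{w'} k T) (X : T) {s : ℕ} {d : Fin s → ℕ}
    {x : ∀ a, Ext.{w'} (𝟙_ T) (𝟙_ T) (d a)}
    (hx : ∀ A : ∀ n, Submodule k (Ext.{w'} (𝟙_ T) (𝟙_ T) n), Ext.mk₀ (𝟙 (𝟙_ T)) ∈ A 0 →
      (∀ i, x i ∈ A (d i)) →
      (∀ m n a b, a ∈ A m → b ∈ A n → a.comp b rfl ∈ A (m + n)) → ∀ n, A n = ⊤)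
    (L : List (Om.{w'} T)) (hpos : ∀ ω ∈ L, 0 < ω.1)
    (hL : ∀ a, 0 < d a → (⟨d a, x a⟩ : Om.{w'} T) ∈ L)
    (hnil : ∀ ω ∈ L, ∀ (q : ℕ) (_ : ω.1 ≤ q + 1) (x : Ext.{w'} (𝟙_ T) X q),
      ω.2.comp (ω.2.comp x rfl) rfl = 0) :
    ∃ B : ℕ, ∀ n, B < n → ∀ x : Ext.{w'} (𝟙_ T) X n, x = 0 := by
  classical
  refine vanish_aux (k := k) X L hpos hnil ?_
  obtain ⟨t, D, y, hy⟩ := hF.mod (𝟙_ T) X
  let B : ℕ := Finset.univ.sup D
  let A : ∀ n, Submodule k (Ext.{w'} (𝟙_ T) X n) := fun n => if n ≤ B then ⊤ else JJ k X L n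
  have h1 : ∀ n, n ≤ B → A n = ⊤ := fun n hn => if_pos hn
  have h2 : ∀ n, B < n → A n = JJ k X L n := fun n hn => if_neg (by omega)
  have h3 : ∀ n, algOf (𝟙_ T) X A n = ⊤ := by
    refine hx _ (one_mem_algOf A) ?_ (fun m n a b ha hb => mul_mem_algOf A ha hb)
    intro a n q h β hβ
    rw [act_unit]
    rcases le_or_gt q B with hq | hq
    · rw [h1 q hq]; trivial
    · rw [h2 q hq]
      rcases Nat.eq_zero_or_pos (d a) with h0 | h0
      · have hn : B < n := by omega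
        rw [h2 n hn] at hβ
        exact JJ_stable X L h _ _ hβ
      · exact mem_JJ X L ⟨d a, x a⟩ (hL a h0) h β
  refine ⟨B, fun n hn => ?_⟩
  rw [← h2 n hn]
  refine hy A ?_ ?_ n
  · intro b
    rw [h1 _ (Finset.le_sup (f := D) (Finset.mem_univ b))]
    trivial
  · intro m n ζ β hβ
    have h4 : ζ ∈ algOf (𝟙_ T) X A m := by rw [h3]; trivial
    exact h4 n _ rfl β hβ

end Van

end Pool.Agent.KUN
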