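import Pool.Agent.KUN.K4

/-!
# Künneth theorem for FGC, part 5: the product of the cones is projective (MP_388894, helper65)
-/

open CategoryTheory MonoidalCategory Limits Abelian

universe w w' v u v₁ u₁

set_option linter.unusedSectionVars false

noncomputable section

namespace Pool.Agent.KUN

open Pool.Agent.MUG Pool.Agent.MUG.Tr

section PT

variable {T : Type u₁} [Category.{v₁} T] [Abelian T] [MonoidalCategory T] [RigidCategory T]

theorem projective_tensorLeft (P W : T) [hP : Projective P] : Projective (W ⊗ P) := by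
  have : Projective ((tensorLeft W).obj P) :=
    (tensorLeftAdjunction (ᘁW) W).map_projective P hP
  exact this

end PT

section Proj

variable {k : Type*} [Field k] {T : Type u₁} [Category.{v₁} T] [Abelian T] [Linear k T]
  [MonoidalCategory T] [MonoidalPreadditive T] [MonoidalLinear k T] [RigidCategory T]
  [HasExt.{w'} T]

theorem zero_post [EnoughProjectives T] {X Y V : T} {n : ℕ} (g : Y ⟶ V) : post (0 : Ext.{w'} X Y n) g = 0 :=
  zero_comp' _ _

theorem coev_ne_zero (X : T) (hX : 𝟙 X ≠ 0) : η_ X (Xᘁ) ≠ 0 := by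
  intro h
  apply hX
  have h1 := ExactPairing.evaluation_coevaluation X (Xᘁ)
  rw [h] at h1
  simp only [MonoidalPreadditive.zero_whiskerRight, zero_comp] at h1
  have h2 : (λ_ X).inv ≫ ((λ_ X).hom ≫ (ρ_ X).inv) ≫ (ρ_ X).hom = 𝟙 X := by simp
  rw [← h2, ← h1]
  simp

/-- An object `C` with `Ext^q(1, C ⊗ M) = 0` for large `q` is projective. -/
theorem projective_of_vanish (hT : IsFinite k T) (C : T)
    (h : ∀ M : T, ∃ B : ℕ, ∀ n, B < n → ∀ x : Ext.{w'} (𝟙_ T) (C ⊗ M) n, x = 0) :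
    Projective C := by
  classical
  have hen := hT.enough
  have hone := hT.unit
  -- a uniform bound
  obtain ⟨n, S, hS⟩ := hT.simples
  choose b hb using fun a => h (S a)
  let B : ℕ := Finset.univ.sup b
  have hu : ∀ M : T, ∀ q, B < q → ∀ x : Ext.{w'} (𝟙_ T) (C ⊗ M) q, x = 0 := by
    intro M
    refine fl_induction hT.artinian hT.noetherian
      (fun M => ∀ q, B < q → ∀ x : Ext.{w'} (𝟙_ T) (C ⊗ M) q, x = 0) ?_ ?_ M
    · intro X hX q _ x
      refine ext_zero_tgt ?_ x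
      rw [IsZero.iff_id_eq_zero] at hX ⊢
      rw [← whiskerLeft_id, hX, MonoidalPreadditive.whiskerLeft_zero]
    · intro Sc hSc h1 hs q hq x
      obtain ⟨a, ⟨e⟩⟩ := hS _ hs
      have h3 : ∀ y : Ext.{w'} (𝟙_ T) (C ⊗ Sc.X₃) q, y = 0 := by
        intro y
        have h4 : post y (C ◁ e.hom) = 0 := hb a q
          (lt_of_le_of_lt (Finset.le_sup (f := b) (Finset.mem_univ a)) hq) _
        have h5 : post (post y (C ◁ e.hom)) (C ◁ e.inv) = y := by
          rw [post_post, ← whiskerLeft_comp, e.hom_inv_id, whiskerLeft_id, post_id]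
        rw [← h5, h4, zero_post]
      obtain ⟨y, hy⟩ := Ext.covariant_sequence_exact₂ (𝟙_ T) (hSc.map_of_exact (tensorLeft C)) x
        (h3 _)
      rw [← hy]
      have h6 : y = 0 := h1 q hq y
      rw [h6]
      exact zero_post _
  -- descending
  have hd : ∀ t q, 0 < q → B < q + t → ∀ (M : T) (x : Ext.{w'} (𝟙_ T) (C ⊗ M) q), x = 0 := by
    intro t
    induction t with
    | zero => exact fun q _ h M => hu M q h
    | succ t ih =>
      intro q hq hq' M x
      let p : Projective.over M ⟶ M := Projective.π M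
      have hSc : (ShortComplex.mk (kernel.ι p) p (kernel.condition p)).ShortExact :=
        { exact := ShortComplex.exact_kernel p
          mono_f := inferInstanceAs (Mono (kernel.ι p))
          epi_g := inferInstanceAs (Epi (Projective.π M)) }
      have h1 := ih (q + 1) (by omega) (by omega) (kernel p)
      obtain ⟨y, hy⟩ := Ext.covariant_sequence_exact₃ (𝟙_ T) (hSc.map_of_exact (tensorLeft C)) x
        rfl (h1 _)
      have h2 : Projective (C ⊗ Projective.over M) := projective_tensorLeft _ _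
      have h3 : Injective (C ⊗ Projective.over M) := RC40.injective_of_projective _
      obtain ⟨q', rfl⟩ : ∃ q', q = q' + 1 := ⟨q - 1, by omega⟩
      have h4 : y = 0 := ext_injective_zero h3 _
      rw [← hy, h4]
      exact zero_post _
  have h1 : ∀ (M : T) (x : Ext.{w'} M C 1), x = 0 := by
    intro M x
    apply psi_injective (k := k) M C 1
    rw [hd B 1 (by omega) (by omega) (Mᘁ) (psi k M C 1 x), hd B 1 (by omega) (by omega) (Mᘁ)
      (psi k M C 1 0)]
  -- embed into a projective object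
  let P := Projective.over (𝟙_ T)
  have hP : 𝟙 P ≠ 0 := by
    intro h0
    have h2 : Projective.π (𝟙_ T) = 0 := by
      rw [← Category.id_comp (Projective.π (𝟙_ T))]
      change 𝟙 P ≫ _ = 0
      rw [h0, zero_comp]
    have h3 : 𝟙 (𝟙_ T) = 0 := by
      rw [← cancel_epi (Projective.π (𝟙_ T)), h2, zero_comp, zero_comp]
    exact id_nonzero _ h3
  have hm : Mono (η_ P (Pᘁ)) := mono_of_nonzero_from_simple (coev_ne_zero P hP)
  let u : C ⟶ C ⊗ (P ⊗ Pᘁ) := (ρ_ C).inv ≫ (C ◁ η_ P (Pᘁ))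
  have hu' : Mono u := by
    have : Mono (C ◁ η_ P (Pᘁ)) := inferInstanceAs (Mono ((tensorLeft C).map _))
    exact mono_comp _ _
  have hE : Projective (C ⊗ (P ⊗ Pᘁ)) := by
    have : Projective (P ⊗ Pᘁ) := projective_tensorRight _ _
    exact projective_tensorLeft _ _
  have hSc : (ShortComplex.mk u (cokernel.π u) (cokernel.condition u)).ShortExact :=
    { exact := ShortComplex.exact_cokernel u
      mono_f := hu'
      epi_g := inferInstanceAs (Epi (cokernel.π u)) }
  obtain ⟨y, hy⟩ := Ext.contravariant_sequence_exact₁ hSc C (Ext.mk₀ (𝟙 C)) rfl (h1 _ _)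
  obtain ⟨g, rfl⟩ := (Ext.mk₀_bijective _ _).2 y
  rw [Ext.mk₀_comp_mk₀] at hy
  have hg : u ≫ g = 𝟙 C := (Ext.mk₀_bijective _ _).1 hy
  let R : Retract C (C ⊗ (P ⊗ Pᘁ)) := ⟨u, g, hg⟩
  exact R.projective

end Proj

section Prod

variable {k : Type*} [Field k] {Z : Type u} [Category.{v} Z] [Abelian Z] [Linear k Z]
  [MonoidalCategory Z] [MonoidalPreadditive Z] [MonoidalLinear k Z] [RigidCategory Z]
  [HasExt.{w} Z] [EnoughProjectives Z] {r : ℕ} (c : Fin r → Om.{w} Z)
  {T : Type u₁} [Category.{v₁} T] [Abelian T] [Linear k T] [MonoidalCategory T]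
  [MonoidalPreadditive T] [MonoidalLinear k T] [RigidCategory T] [HasExt.{w'} T]
  [EnoughProjectives T] [BraidedCategory T]
  (i : T ⥤ Z) [i.Additive] [PreservesFiniteLimits i] [PreservesFiniteColimits i] [i.Monoidal]

/-- `ω` acts with square zero on `Ext(1, X)` (in high degrees). -/
def Nil (X : T) (ω : Om.{w'} T) : Prop :=
  ∀ (q : ℕ) (_ : ω.1 ≤ q + 1) (x : Ext.{w'} (𝟙_ T) X q), ω.2.comp (ω.2.comp x rfl) rfl = 0

theorem Nil.iso {X Y : T} (e : X ≅ Y) {ω : Om.{w'} T} (h : Nil X ω) : Nil Y ω := by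
  intro q hq x
  have h1 := h q hq (post x e.inv)
  have h2 : post (ω.2.comp (ω.2.comp (post x e.inv) rfl) rfl) e.hom =
      ω.2.comp (ω.2.comp x rfl) rfl := by
    rw [comp_post, comp_post, post_post, e.inv_hom_id, post_id]
  rw [← h2, h1, zero_post]

/-- The product of the cones of a list of classes of positive degree. -/
theorem exists_prod (hP : ∀ Q : T, Projective Q → ∀ N : Z, GN k c (i.obj Q ⊗ N))
    (hc : ∀ (Y : Z) (A : ∀ n, Submodule k (Ext.{w} (𝟙_ Z) Y n)), St c A →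
      ∀ (m : ℕ) (z : Ext.{w'} (𝟙_ T) (𝟙_ T) m) (n q : ℕ) (h : m + n = q)
        (β : Ext.{w} (𝟙_ Z) Y n), β ∈ A n → (hat i z : Ext.{w} (𝟙_ Z) (𝟙_ Z) m).comp β h ∈ A q)
    (L : List (Om.{w'} T)) (hpos : ∀ ω ∈ L, 0 < ω.1) :
    ∃ C : T, (∀ N : Z, GN k c (i.obj C ⊗ N) → GN k c N) ∧ ∀ ω ∈ L, ∀ M : T, Nil (C ⊗ M) ω := by
  induction L with
  | nil => exact ⟨𝟙_ T, fun N h => GN.iso c (unitIso i N) h, by simp⟩
  | cons ω L ih =>
    obtain ⟨C₁, h1, h2⟩ := ih (fun ω' h => hpos ω' (List.mem_cons_of_mem _ h))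
    obtain ⟨m, z⟩ := ω
    obtain ⟨e, rfl⟩ : ∃ e, m = e + 1 := ⟨m - 1, by
      have := hpos ⟨m, z⟩ List.mem_cons_self
      simp only at this
      omega⟩
    obtain ⟨C₀, h3, h4⟩ := gn_step c i hP hc z
    refine ⟨C₀ ⊗ C₁, fun N hN => h1 N (h3 _ (GN.iso c ?_ hN)), ?_⟩
    · exact whiskerRightIso (Functor.Monoidal.μIso i C₀ C₁).symm N ≪≫ α_ _ _ _
    · intro ω' hω' M
      rcases List.mem_cons.1 hω' with rfl | h'
      · refine Nil.iso (α_ C₀ C₁ M).symm ?_
        intro q hq x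
        exact h4 (C₁ ⊗ M) q (by simpa using hq) x
      · exact Nil.iso ((α_ C₁ C₀ M).symm ≪≫ whiskerRightIso (β_ C₁ C₀) M) (h2 ω' h' (C₀ ⊗ M))

/-- **Reduction to projective objects of `T`.** -/
theorem gn_all (hT : IsFinite k T) (hF : FGC.{w'} k T)
    (hP : ∀ Q : T, Projective Q → ∀ N : Z, GN k c (i.obj Q ⊗ N))
    (hc : ∀ (Y : Z) (A : ∀ n, Submodule k (Ext.{w} (𝟙_ Z) Y n)), St c A →
      ∀ (m : ℕ) (z : Ext.{w'} (𝟙_ T) (𝟙_ T) m) (n q : ℕ) (h : m + n = q)
        (β : Ext.{w} (𝟙_ Z) Y n), β ∈ A n → (hat i z : Ext.{w} (𝟙_ Z) (𝟙_ Z) m).comp β h ∈ A q)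
    (N : Z) : GN k c N := by
  classical
  obtain ⟨s, d, x, hx⟩ := hF.alg
  let L : List (Om.{w'} T) := (List.ofFn (fun a => (⟨d a, x a⟩ : Om.{w'} T))).filter
    (fun ω => decide (0 < ω.1))
  have hpos : ∀ ω ∈ L, 0 < ω.1 := fun ω hω => by
    simpa using (List.mem_filter.1 hω).2
  have hL : ∀ a, 0 < d a → (⟨d a, x a⟩ : Om.{w'} T) ∈ L := fun a ha => by
    refine List.mem_filter.2 ⟨?_, by simpa using ha⟩
    rw [List.mem_ofFn]
    exact ⟨a, rfl⟩
  obtain ⟨C, h1, h2⟩ := exists_prod c i hP hc L hpos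
  refine h1 N (hP C ?_ N)
  exact projective_of_vanish hT C (fun M => vanish hF (C ⊗ M) hx L hpos hL
    (fun ω hω => h2 ω hω M))

end Prod

end Pool.Agent.KUN
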