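import Pool.Agent.KUN.K5
import Pool.Agent.RC40.TRF
import Pool.Agent.RC40.ADJ

/-!
# Künneth theorem for FGC, part 6: projective objects of `T` and the theorem
(MP_388894, helper65)
-/

open CategoryTheory MonoidalCategory Limits Abelian

universe w w' w₂ v u v₁ u₁ v₂ u₂

set_option linter.unusedSectionVars false
set_option backward.isDefEq.respectTransparency.types false

noncomputable section

namespace Pool.Agent.KUN

open Pool.Agent.MUG Pool.Agent.MUG.Tr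
open Pool.Agent.MUE79 (adjTo adjFrom adjFrom_adjTo adjTo_comp adjTo_map_comp)

section StepA

variable {k : Type*} [Field k] {Z : Type u} [Category.{v} Z] [Abelian Z] [Linear k Z]
  [MonoidalCategory Z] [MonoidalPreadditive Z] [MonoidalLinear k Z] [RigidCategory Z]
  [HasExt.{w} Z] [EnoughProjectives Z]
  {S : Type u₂} [Category.{v₂} S] [Abelian S] [Linear k S] [MonoidalCategory S]
  [MonoidalPreadditive S] [MonoidalLinear k S] [RigidCategory S] [HasExt.{w₂} S]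
  [EnoughProjectives S]
  (j : S ⥤ Z) [j.Additive] [j.Linear k] [PreservesFiniteLimits j] [PreservesFiniteColimits j]
  [j.Monoidal]

/-- `X ↦ W* ⊗ jX` -/
abbrev Ph (W : Z) : S ⥤ Z := j ⋙ tensorLeft (Wᘁ)

variable {W : Z} {G : Z ⥤ S} (adj : Ph j W ⊣ G) [G.Additive] [PreservesFiniteLimits G]
  [PreservesFiniteColimits G]

variable (k) in
/-- `Ext(1, G N) → Ext(1, W ⊗ N)`. -/
def phiA (N : Z) (n : ℕ) :
    Ext.{w₂} (𝟙_ S) (G.obj N) n →ₗ[k] Ext.{w} (𝟙_ Z) (W ⊗ N) n where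
  toFun β := pre (Functor.LaxMonoidal.ε j)
    (adjTo (tensorLeftAdjunction W (Wᘁ)) (X := j.obj (𝟙_ S)) (Y := N)
      (adjFrom adj (X := 𝟙_ S) (Y := N) β))
  map_add' β γ := by
    unfold adjFrom adjTo pre
    rw [Ext.mapExactFunctor_add, Ext.add_comp, Ext.mapExactFunctor_add, Ext.comp_add,
      Ext.comp_add]
  map_smul' t β := by
    unfold adjFrom adjTo pre
    rw [Functor.mapExactFunctor_smul, Ext.smul_comp, Functor.mapExactFunctor_smul,
      Ext.comp_smul, Ext.comp_smul]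
    rfl

variable (k) in
theorem phiA_surjective (N : Z) (n : ℕ) : Function.Surjective (phiA.{w, w₂} k j adj N n) := by
  intro γ
  refine ⟨adjTo adj (X := 𝟙_ S) (Y := N) (adjFrom (tensorLeftAdjunction W (Wᘁ))
    (X := j.obj (𝟙_ S)) (Y := N) (pre (Functor.OplaxMonoidal.η j) γ)), ?_⟩
  change pre (Functor.LaxMonoidal.ε j)
    (adjTo (tensorLeftAdjunction W (Wᘁ)) (X := j.obj (𝟙_ S)) (Y := N)
      (adjFrom adj (X := 𝟙_ S) (Y := N) (adjTo adj (X := 𝟙_ S) (Y := N)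
        (adjFrom (tensorLeftAdjunction W (Wᘁ))
    (X := j.obj (𝟙_ S)) (Y := N) (pre (Functor.OplaxMonoidal.η j) γ))))) = γ
  rw [adjFrom_adjTo, MUE79.adjTo_adjFrom, pre_pre, Functor.Monoidal.ε_η, pre_id]

variable (k) in
theorem phiA_comp (N : Z) {m n q : ℕ} (h : m + n = q)
    (ζ : Ext.{w₂} (𝟙_ S) (𝟙_ S) m) (β : Ext.{w₂} (𝟙_ S) (G.obj N) n) :
    phiA.{w, w₂} k j adj N q (ζ.comp β h) =
      (hat j ζ : Ext.{w} (𝟙_ Z) (𝟙_ Z) m).comp (phiA.{w, w₂} k j adj N n β) h := by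
  change pre (Functor.LaxMonoidal.ε j)
    (adjTo (tensorLeftAdjunction W (Wᘁ)) (X := j.obj (𝟙_ S)) (Y := N)
      (adjFrom adj (X := 𝟙_ S) (Y := N) (ζ.comp β h))) =
    (pre (Functor.LaxMonoidal.ε j) (post (ζ.mapExactFunctor j)
      (Functor.OplaxMonoidal.η j))).comp
      (pre (Functor.LaxMonoidal.ε j)
        (adjTo (tensorLeftAdjunction W (Wᘁ)) (X := j.obj (𝟙_ S)) (Y := N)
          (adjFrom adj (X := 𝟙_ S) (Y := N) β))) h
  rw [← pre_comp, post_comp, pre_pre, Functor.Monoidal.η_ε, pre_id]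
  congr 1
  have h1 : adjFrom adj (X := 𝟙_ S) (Y := N) (ζ.comp β h) =
      ((ζ.mapExactFunctor j : Ext.{w} (j.obj (𝟙_ S)) (j.obj (𝟙_ S)) m).mapExactFunctor
        (tensorLeft (Wᘁ))).comp (adjFrom adj (X := 𝟙_ S) (Y := N) β) h := by
    unfold adjFrom
    rw [Ext.mapExactFunctor_comp]
    have h2 := MUE79.map_comp j (tensorLeft (Wᘁ)) ζ
    rw [← h2]
    exact Ext.comp_assoc_of_third_deg_zero _ _ _ _
  rw [h1]
  exact adjTo_map_comp _ _ _ _

/-- The case of a product with an object `W` such that `W* ⊗ jP` is projective for `P`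
projective. -/
theorem gn_proj (hS : IsFinite k S) (hZ : IsFinite k Z) (hF : FGC.{w₂} k S) {r : ℕ}
    (c : Fin r → Om.{w} Z)
    (hc : ∀ (Y : Z) (A : ∀ n, Submodule k (Ext.{w} (𝟙_ Z) Y n)), St c A →
      ∀ (m : ℕ) (z : Ext.{w₂} (𝟙_ S) (𝟙_ S) m) (n q : ℕ) (h : m + n = q)
        (β : Ext.{w} (𝟙_ Z) Y n), β ∈ A n → (hat j z : Ext.{w} (𝟙_ Z) (𝟙_ Z) m).comp β h ∈ A q)
    (W : Z) (hW : ∀ P : S, Projective P → Projective ((Wᘁ) ⊗ j.obj P)) (N : Z) :
    GN k c (W ⊗ N) := by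
  have hlin : (Ph j W).Linear k := inferInstance
  obtain ⟨G, ⟨adj⟩⟩ := RC40.isLeftAdjoint_of_exact hS.finCat hZ.hom_finite (Ph j W)
  have hadd : G.Additive := adj.right_adjoint_additive
  have hfl : PreservesFiniteLimits G := by
    have : G.IsRightAdjoint := ⟨_, ⟨adj⟩⟩
    exact ⟨fun _ _ _ => inferInstance⟩
  have hfc : PreservesFiniteColimits G := RC40.rightAdjoint_pfc adj hW
  apply gn_of_fg
  obtain ⟨r', D, y, hy⟩ := hF.mod (𝟙_ S) (G.obj N)
  refine ⟨r', D, fun a => phiA.{w, w₂} k j adj N (D a) (y a), fun A h1 h2 n => ?_⟩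
  have h3 := hy (fun n => (A n).comap (phiA.{w, w₂} k j adj N n)) h2 ?_ n
  · rw [eq_top_iff]
    intro γ _
    obtain ⟨β, rfl⟩ := phiA_surjective.{w, w₂} k j adj N n γ
    have h4 : β ∈ (A n).comap (phiA.{w, w₂} k j adj N n) := by
      rw [h3]
      trivial
    exact h4
  · intro m n ζ b hb
    rw [act_unit]
    change phiA.{w, w₂} k j adj N (m + n) (ζ.comp b rfl) ∈ A (m + n)
    rw [phiA_comp]
    exact hc _ A h1 m ζ n (m + n) rfl _ hb

end StepA

section Dual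

variable {Z : Type u} [Category.{v} Z] [Abelian Z] [MonoidalCategory Z]
  [MonoidalPreadditive Z] [RigidCategory Z] [BraidedCategory Z]

theorem projective_dual_tensor (V W : Z) (h : Projective (V ⊗ W)) : Projective ((Vᘁ) ⊗ W) := by
  let R : Retract (Vᘁ) ((Vᘁ) ⊗ (V ⊗ Vᘁ)) :=
    { i := (ρ_ _).inv ≫ (Vᘁ) ◁ η_ V (Vᘁ)
      r := (α_ _ _ _).inv ≫ (ε_ V (Vᘁ) ▷ (Vᘁ)) ≫ (λ_ _).hom
      retract := by
        have h1 := ExactPairing.coevaluation_evaluation V (Vᘁ)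
        rw [Category.assoc, reassoc_of% h1]
        simp }
  have h1 : Projective (((Vᘁ) ⊗ (V ⊗ Vᘁ)) ⊗ W) := by
    have h2 : Projective ((V ⊗ W) ⊗ (Vᘁ)) := projective_tensorRight _ _
    have h3 : Projective ((Vᘁ) ⊗ ((V ⊗ W) ⊗ (Vᘁ))) := projective_tensorLeft _ _
    refine Projective.of_iso ?_ h3
    exact whiskerLeftIso _ (α_ _ _ _ ≪≫ whiskerLeftIso V (β_ W (Vᘁ)) ≪≫ (α_ _ _ _).symm) ≪≫
      (α_ _ _ _).symm
  let R' : Retract ((Vᘁ) ⊗ W) (((Vᘁ) ⊗ (V ⊗ Vᘁ)) ⊗ W) := R.map (tensorRight W)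
  exact R'.projective

end Dual

section Main

variable {k : Type*} [Field k] {Z : Type u} [Category.{v} Z] [Abelian Z] [Linear k Z]
  [MonoidalCategory Z] [MonoidalPreadditive Z] [MonoidalLinear k Z] [RigidCategory Z]
  [BraidedCategory Z] [HasExt.{w} Z]
  {S : Type u₂} [Category.{v₂} S] [Abelian S] [Linear k S] [MonoidalCategory S]
  [MonoidalPreadditive S] [MonoidalLinear k S] [RigidCategory S] [HasExt.{w₂} S]
  (j : S ⥤ Z) [j.Additive] [j.Linear k] [PreservesFiniteLimits j] [PreservesFiniteColimits j]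
  [j.Monoidal]
  {T : Type u₁} [Category.{v₁} T] [Abelian T] [Linear k T] [MonoidalCategory T]
  [MonoidalPreadditive T] [MonoidalLinear k T] [RigidCategory T] [HasExt.{w'} T]
  [BraidedCategory T]
  (i : T ⥤ Z) [i.Additive] [i.Linear k] [PreservesFiniteLimits i] [PreservesFiniteColimits i]
  [i.Monoidal]

theorem st_of_range {r : ℕ} {c : Fin r → Om.{w} Z} {Y : Z}
    {A : ∀ n, Submodule k (Ext.{w} (𝟙_ Z) Y n)} (hA : St c A) (ω : Om.{w} Z)
    (hω : ∃ a, c a = ω) (m q : ℕ) (h : ω.1 + m = q) (β : Ext.{w} (𝟙_ Z) Y m) (hβ : β ∈ A m) :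
    ω.2.comp β h ∈ A q := by
  obtain ⟨a, rfl⟩ := hω
  exact hA a m q h β hβ

/-- the classes which preserve `A` -/
def pres {Y : Z} (A : ∀ n, Submodule k (Ext.{w} (𝟙_ Z) Y n)) (m : ℕ) :
    Submodule k (Ext.{w} (𝟙_ Z) (𝟙_ Z) m) where
  carrier := {ζ | ∀ (n q : ℕ) (h : m + n = q) (β : Ext.{w} (𝟙_ Z) Y n), β ∈ A n →
    ζ.comp β h ∈ A q}
  add_mem' := by
    intro ζ ξ hζ hξ n q h β hβ
    rw [Ext.add_comp]
    exact (A q).add_mem (hζ n q h β hβ) (hξ n q h β hβ)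
  zero_mem' := by
    intro n q h β hβ
    rw [Ext.zero_comp]
    exact (A q).zero_mem
  smul_mem' := by
    intro t ζ hζ n q h β hβ
    rw [Ext.smul_comp]
    exact (A q).smul_mem t (hζ n q h β hβ)

/-- Stability under generators implies stability. -/
theorem hat_mem [EnoughProjectives S] {s : ℕ} {d : Fin s → ℕ}
    {x : ∀ a, Ext.{w₂} (𝟙_ S) (𝟙_ S) (d a)}
    (hx : ∀ A : ∀ n, Submodule k (Ext.{w₂} (𝟙_ S) (𝟙_ S) n), Ext.mk₀ (𝟙 (𝟙_ S)) ∈ A 0 →
      (∀ i, x i ∈ A (d i)) →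
      (∀ m n a b, a ∈ A m → b ∈ A n → a.comp b rfl ∈ A (m + n)) → ∀ n, A n = ⊤)
    {r : ℕ} (c : Fin r → Om.{w} Z) (hc : ∀ a, ∃ b, c b = ⟨d a, hat j (x a)⟩)
    (Y : Z) (A : ∀ n, Submodule k (Ext.{w} (𝟙_ Z) Y n)) (hA : St c A)
    (m : ℕ) (z : Ext.{w₂} (𝟙_ S) (𝟙_ S) m) (n q : ℕ) (h : m + n = q)
    (β : Ext.{w} (𝟙_ Z) Y n) (hβ : β ∈ A n) :
    (hat j z : Ext.{w} (𝟙_ Z) (𝟙_ Z) m).comp β h ∈ A q := by
  have h1 : ∀ m, (pres A m).comap (hatL.{w, w₂} (k := k) j m) = ⊤ := by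
    refine hx (fun m => (pres A m).comap (hatL.{w, w₂} (k := k) j m)) ?_ ?_ ?_
    · intro n q h β hβ
      change (hat j _ : Ext.{w} (𝟙_ Z) (𝟙_ Z) 0).comp β h ∈ A q
      obtain rfl : n = q := by omega
      rw [hat_one]
      rwa [Ext.mk₀_id_comp]
    · intro a n q h β hβ
      exact st_of_range hA ⟨d a, hat j (x a)⟩ (hc a) n q h β hβ
    · intro m n a b ha hb l q h β hβ
      change (hat j (a.comp b rfl) : Ext.{w} (𝟙_ Z) (𝟙_ Z) (m + n)).comp β h ∈ A q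
      rw [hat_comp, Ext.comp_assoc (a₁₂ := m + n) (a₂₃ := n + l) _ _ _ rfl rfl (by omega)]
      exact ha _ q (by omega) _ (hb l _ rfl β hβ)
  have h2 : z ∈ (pres A m).comap (hatL.{w, w₂} (k := k) j m) := by
    rw [h1]
    trivial
  exact h2 n q h β hβ

/-- FGC from finite generation over finitely many classes. -/
theorem fgc_of_gn (hZ : IsFinite k Z) {r : ℕ} (c : Fin r → Om.{w} Z)
    (h : ∀ Y : Z, GN k c Y) : FGC.{w} k Z := by
  have := hZ.enough
  constructor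
  · obtain ⟨s, D, g, hg⟩ := (h (𝟙_ Z)).gn
    obtain ⟨t, d', y, hy⟩ := exists_fin (ι := Fin r ⊕ Fin s)
      (M := fun n => Ext.{w} (𝟙_ Z) (𝟙_ Z) n)
      (Sum.elim (fun a => (c a).1) D)
      (fun p => match p with
        | Sum.inl l => (c l).2
        | Sum.inr a => g a)
    refine ⟨t, d', y, ?_⟩
    intro B h1 h2 h3
    have h4 := hy (fun n x => x ∈ B n) h2
    refine hg B ?_ (fun a => h4 (Sum.inr a))
    intro a m q e β hβ
    obtain rfl : (c a).1 + m = q := e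
    exact h3 _ _ _ _ (h4 (Sum.inl a)) hβ
  · intro M N
    obtain ⟨s, D, g, hg⟩ := (h (N ⊗ Mᘁ)).gn
    have hsurj : ∀ a, ∃ y : Ext.{w} M N (D a), psi k M N (D a) y = g a := by
      intro a
      refine ⟨pre (λ_ M).inv
        (adjFrom (tensorRightAdjunction M (Mᘁ)) (X := 𝟙_ Z) (Y := N) (g a)), ?_⟩
      rw [psi_apply]
      have h1 : pre (X := (tensorRight M).obj (𝟙_ Z)) (λ_ M).hom (pre (λ_ M).inv
          (adjFrom (tensorRightAdjunction M (Mᘁ)) (X := 𝟙_ Z) (Y := N) (g a))) =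
          adjFrom (tensorRightAdjunction M (Mᘁ)) (X := 𝟙_ Z) (Y := N) (g a) := by
        rw [pre_pre, Iso.hom_inv_id]
        exact pre_id _
      rw [h1]
      exact Pool.Agent.MUE79.adjTo_adjFrom _ _
    choose y hy using hsurj
    refine ⟨s, D, y, ?_⟩
    intro B h1 h2 n
    have h3 := hg (fun n => (B n).map (psi k M N n)) ?_ ?_ n
    · rw [eq_top_iff]
      intro β _
      have h4 : psi k M N n β ∈ (B n).map (psi k M N n) := by
        have h5 : (B n).map (psi k M N n) = ⊤ := h3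
        rw [h5]
        trivial
      obtain ⟨β', hβ', he⟩ := Submodule.mem_map.1 h4
      rw [psi_injective (k := k) M N n _ _ he] at hβ'
      exact hβ'
    · intro a m q e β hβ
      obtain rfl : (c a).1 + m = q := e
      obtain ⟨β', hβ', rfl⟩ := Submodule.mem_map.1 hβ
      exact Submodule.mem_map.2 ⟨_, h2 _ m (c a).2 β' hβ', psi_act M N rfl _ _⟩
    · intro a
      exact Submodule.mem_map.2 ⟨y a, h1 a, hy a⟩

/-- **Künneth theorem for FGC.**  Let `i : T ⥤ Z` and `j : S ⥤ Z` be exact linear monoidal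
functors of finite tensor categories (`T` and `Z` braided) such that `iQ ⊗ jP` is projective
whenever `Q` and `P` are.  If `S` and `T` satisfy FGC, then so does `Z`. -/
theorem fgc_kunneth (hZ : IsFinite k Z) (hS : IsFinite k S) (hT : IsFinite k T)
    (hFS : FGC.{w₂} k S) (hFT : FGC.{w'} k T)
    (hproj : ∀ (Q : T) (P : S), Projective Q → Projective P →
      Projective (i.obj Q ⊗ j.obj P)) : FGC.{w} k Z := by
  have := hZ.enough
  have := hS.enough
  have := hT.enough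
  obtain ⟨rS, dS, xS, hxS⟩ := hFS.alg
  obtain ⟨rT, dT, xT, hxT⟩ := hFT.alg
  let c : Fin (rS + rT) → Om.{w} Z := Fin.append
    (fun a => (⟨dS a, hat j (xS a)⟩ : Om.{w} Z)) (fun b => (⟨dT b, hat i (xT b)⟩ : Om.{w} Z))
  have hcS := hat_mem (k := k) j hxS c (fun a => ⟨Fin.castAdd rT a, Fin.append_left _ _ a⟩)
  have hcT := hat_mem (k := k) i hxT c (fun b => ⟨Fin.natAdd rS b, Fin.append_right _ _ b⟩)
  refine fgc_of_gn hZ c (fun Y => gn_all c i hT hFT ?_ hcT Y)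
  intro Q hQ N
  refine gn_proj j hS hZ hFS c hcS (i.obj Q) (fun P hP => ?_) N
  exact projective_dual_tensor _ _ (hproj Q P hQ hP)

end Main

end Pool.Agent.KUN
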